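import Pool.Agent.Helper68.DS.Goals2

set_option autoImplicit false

/-! Packet LEMG of MP_52cd29_ag: gradients at `k` points. -/

namespace Pool.Agent.Helper82.DS

open MvPolynomial Pool.Agent.Helper68.DS

/-- The gradient at a point. -/
noncomputable def grad (p : Fin 2 → ℂ) : MvPolynomial (Fin 2) ℂ →ₗ[ℂ] (Fin 2 → ℂ) :=
  LinearMap.pi fun a => (aeval p).toLinearMap ∘ₗ (pderiv a).toLinearMap

theorem grad_apply (p : Fin 2 → ℂ) (F : MvPolynomial (Fin 2) ℂ) (a : Fin 2) :
    grad p F a = eval p (pderiv a F) := by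
  simp [grad, aeval_eq_eval]

/-- The gradients at the points `pt`. -/
noncomputable def DG (P : Submodule ℂ (MvPolynomial (Fin 2) ℂ)) {j : ℕ} (pt : Fin j → Fin 2 → ℂ) :
    P →ₗ[ℂ] (Fin j → Fin 2 → ℂ) :=
  LinearMap.pi fun i => grad (pt i) ∘ₗ P.subtype

theorem DG_apply (P : Submodule ℂ (MvPolynomial (Fin 2) ℂ)) {j : ℕ} (pt : Fin j → Fin 2 → ℂ)
    (F : P) (i : Fin j) : DG P pt F i = grad (pt i) F.1 := rfl

theorem cram (a b c d e0 e1 : ℂ) (h : a * d - b * c ≠ 0) :
    (e0 * d - c * e1) / (a * d - b * c) * a + (a * e1 - b * e0) / (a * d - b * c) * c = e0 ∧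
    (e0 * d - c * e1) / (a * d - b * c) * b + (a * e1 - b * e0) / (a * d - b * c) * d = e1 := by
  constructor
  · rw [div_mul_eq_mul_div, div_mul_eq_mul_div, ← add_div, div_eq_iff h]
    ring
  · rw [div_mul_eq_mul_div, div_mul_eq_mul_div, ← add_div, div_eq_iff h]
    ring

theorem step (h1 : LEMJ_stmt) (k : ℕ) (P : Submodule ℂ (MvPolynomial (Fin 2) ℂ))
    (hP : ∀ F ∈ P, F.totalDegree ≤ k ∧ coeff 0 F = 0) (hk : 3 * k ≤ Module.finrank ℂ ↥P + 1)
    (j : ℕ) (hj : j < k) (pt : Fin j → Fin 2 → ℂ) (hs : Function.Surjective (DG P pt)) :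
    ∃ pt' : Fin (j + 1) → Fin 2 → ℂ, Function.Surjective (DG P pt') := by
  have hfin : Module.Finite ℂ ↥P := Module.finite_of_finrank_pos (by omega)
  have hrk := LinearMap.finrank_range_add_finrank_ker (DG P pt)
  rw [LinearMap.range_eq_top.2 hs, finrank_top] at hrk
  have hcard : Module.finrank ℂ (Fin j → Fin 2 → ℂ) = 2 * j := by
    rw [Module.finrank_pi_fintype]
    simp [mul_comm]
  rw [hcard] at hrk
  set Q : Submodule ℂ (MvPolynomial (Fin 2) ℂ) := (LinearMap.ker (DG P pt)).map P.subtype with hQ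
  have hQrk : Module.finrank ℂ ↥Q = Module.finrank ℂ ↥(LinearMap.ker (DG P pt)) :=
    Submodule.finrank_map_subtype_eq _ _
  have hQP : ∀ F ∈ Q, ∃ hF : F ∈ P, DG P pt ⟨F, hF⟩ = 0 := by
    intro F hF
    rw [hQ, Submodule.mem_map] at hF
    obtain ⟨G, hG, rfl⟩ := hF
    exact ⟨G.2, hG⟩
  have hbig : ¬ Module.finrank ℂ ↥Q ≤ k := by omega
  have hex : ∃ F ∈ Q, ∃ G ∈ Q,
      pderiv 0 F * pderiv 1 G - pderiv 1 F * pderiv 0 G ≠ 0 := by
    by_contra hno
    push Not at hno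
    exact hbig (h1 k Q (fun F hF => hP F (hQP F hF).1) hno)
  obtain ⟨F, hF, G, hG, hJ⟩ := hex
  have hx : ∃ x : Fin 2 → ℂ,
      eval x (pderiv 0 F * pderiv 1 G - pderiv 1 F * pderiv 0 G) ≠ 0 := by
    by_contra hno
    push Not at hno
    exact hJ (MvPolynomial.funext fun x => by rw [hno x, map_zero])
  obtain ⟨x, hx⟩ := hx
  rw [map_sub, map_mul, map_mul] at hx
  obtain ⟨hFP, hF0⟩ := hQP F hF
  obtain ⟨hGP, hG0⟩ := hQP G hG
  refine ⟨Fin.snoc pt x, fun v => ?_⟩
  obtain ⟨F0, hF0v⟩ := hs fun i => v i.castSucc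
  set a := eval x (pderiv 0 F) with ha
  set b := eval x (pderiv 1 F) with hb
  set c := eval x (pderiv 0 G) with hc
  set d := eval x (pderiv 1 G) with hd
  set e0 := v (Fin.last j) 0 - eval x (pderiv 0 F0.1) with he0
  set e1 := v (Fin.last j) 1 - eval x (pderiv 1 F0.1) with he1
  have hdet : a * d - b * c ≠ 0 := hx
  refine ⟨F0 + ((e0 * d - c * e1) / (a * d - b * c)) • ⟨F, hFP⟩ +
    ((a * e1 - b * e0) / (a * d - b * c)) • ⟨G, hGP⟩, ?_⟩
  funext i
  refine Fin.lastCases ?_ (fun i => ?_) i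
  · rw [DG_apply, Fin.snoc_last]
    have h3 : (((F0 + ((e0 * d - c * e1) / (a * d - b * c)) • (⟨F, hFP⟩ : P) +
        ((a * e1 - b * e0) / (a * d - b * c)) • (⟨G, hGP⟩ : P) : P)) :
        MvPolynomial (Fin 2) ℂ) = F0.1 + ((e0 * d - c * e1) / (a * d - b * c)) • F +
        ((a * e1 - b * e0) / (a * d - b * c)) • G := rfl
    rw [h3]
    simp only [map_add, map_smul]
    funext t
    simp only [Pi.add_apply, Pi.smul_apply, smul_eq_mul, grad_apply]
    fin_cases t
    · simp only [Fin.zero_eta, Fin.isValue]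
      rw [← ha, ← hc]
      have h4 : v (Fin.last j) 0 = eval x (pderiv 0 F0.1) + e0 := by rw [he0]; ring
      rw [h4, add_assoc, (cram a b c d e0 e1 hdet).1]
    · simp only [Fin.mk_one, Fin.isValue]
      rw [← hb, ← hd]
      have h4 : v (Fin.last j) 1 = eval x (pderiv 1 F0.1) + e1 := by rw [he1]; ring
      rw [h4, add_assoc, (cram a b c d e0 e1 hdet).2]
  · have h5 := congrFun hF0v i
    have h6 := congrFun hF0 i
    have h7 := congrFun hG0 i
    rw [DG_apply] at h5 h6 h7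
    rw [DG_apply, Fin.snoc_castSucc]
    have h3 : (((F0 + ((e0 * d - c * e1) / (a * d - b * c)) • (⟨F, hFP⟩ : P) +
        ((a * e1 - b * e0) / (a * d - b * c)) • (⟨G, hGP⟩ : P) : P)) :
        MvPolynomial (Fin 2) ℂ) = F0.1 + ((e0 * d - c * e1) / (a * d - b * c)) • F +
        ((a * e1 - b * e0) / (a * d - b * c)) • G := rfl
    rw [h3]
    simp only [map_add, map_smul]
    rw [h5, h6, h7]
    simp

/-- Packet LEMG. -/
theorem LEMG (h1 : LEMJ_stmt) : LEMG_stmt := by
  intro k P hP hk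
  have key : ∀ j : ℕ, j ≤ k → ∃ pt : Fin j → Fin 2 → ℂ, Function.Surjective (DG P pt) := by
    intro j
    induction j with
    | zero =>
      intro _
      refine ⟨fun i => i.elim0, fun v => ⟨0, ?_⟩⟩
      funext i
      exact i.elim0
    | succ j ih =>
      intro hj
      obtain ⟨pt, hpt⟩ := ih (by omega)
      exact step h1 k P hP hk j (by omega) pt hpt
  obtain ⟨pt, hpt⟩ := key k le_rfl
  refine ⟨pt, fun w hw => ?_⟩
  funext i a
  obtain ⟨F, hF⟩ := hpt (Pi.single i (Pi.single a 1))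
  have h := hw F.1 F.2
  have h2 : ∀ i' (b : Fin 2), eval (pt i') (pderiv b F.1) =
      (Pi.single i (Pi.single a 1) : Fin k → Fin 2 → ℂ) i' b := by
    intro i' b
    rw [← hF, DG_apply, grad_apply]
  simp only [h2] at h
  rw [Finset.sum_eq_single i] at h
  · simp only [Pi.single_eq_same] at h
    fin_cases a
    · simpa using h
    · simpa using h
  · intro b _ hb
    rw [Pi.single_eq_of_ne hb]
    simp
  · intro h'
    exact absurd (Finset.mem_univ _) h'

end Pool.Agent.Helper82.DS
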